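import Pool.Agent.MP_00acf4_nt.Tw.Asym

set_option autoImplicit false

namespace Pool.Agent.Results.MP_00acf4_nt.BinaryGaps

open Polynomial Filter Topology

/-- Polignac's conjecture, with a limiting frequency, for the irreducible polynomials over the
field with two elements listed by their binary values. -/
theorem result (B : ℕ → Prop)
    (hB : ∀ y, B y ↔ ∃ f : (ZMod 2)[X], Irreducible f ∧ ∑ i ∈ f.support, 2 ^ i = y)
    (d : ℕ) (hd : Even d) (h0 : 0 < d) :
    ∃ C : ℝ, 0 < C ∧ Tendsto (fun m : ℕ => (m : ℝ) ^ 2 *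
      Nat.card {y : ℕ // 2 ^ m ≤ y ∧ y < 2 ^ (m + 1) ∧ B y ∧ B (y + d) ∧
        ∀ w, y < w → w < y + d → ¬ B w} / 2 ^ m) atTop (𝓝 C) := by
  obtain rfl : B = Pool.Agent.HTW.PB := funext fun y => propext (hB y)
  obtain ⟨C, h1, h2⟩ := Pool.Agent.HTW.gap_asym hd h0
  refine ⟨C, h1, h2.congr fun m => ?_⟩
  rw [Nat.subtype_card (Pool.Agent.HTW.GI d m) fun y => by
    simp only [Pool.Agent.HTW.GI, Pool.Agent.HTW.Gp, Finset.mem_filter, Finset.mem_Ico, and_assoc]]

end Pool.Agent.Results.MP_00acf4_nt.BinaryGaps
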