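import Pool.Agent.MP_00acf4_nt.Tw.Short

set_option autoImplicit false

namespace Pool.Agent.Results.MP_00acf4_nt.CharTwoTwins

open Polynomial
open scoped Classical

/-- The Hardy-Littlewood asymptotic for prime pairs `P`, `P + h` with `P` in a prescribed short
interval, over every finite field of characteristic two, uniformly in `h`, the interval and
`l ^ 21 ≤ n`. -/
theorem result (k : Type) [Field k] [Finite k] [CharP k 2] (ε : ℝ) (hε : 0 < ε) :
    ∃ n₀ : ℕ, ∀ (n l : ℕ) (h A : k[X]), n₀ ≤ n → l ^ 21 ≤ n → h ≠ 0 → h.natDegree < n →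
      A.Monic → A.natDegree = n → (Nat.card k = 2 → X * (X + 1) ∣ h) →
      |(n : ℝ) ^ 2 *
          Nat.card {P : k[X] // P.Monic ∧ P.natDegree = n ∧ (P - A).degree < (n - l : ℕ) ∧
            Irreducible P ∧ Irreducible (P + h)} /
          (Nat.card k : ℝ) ^ (n - l) /
          (∏' p : {p : k[X] // p.Monic ∧ Irreducible p},
            (1 - (if p.1 ∣ h then 1 else 2) / (Nat.card k : ℝ) ^ p.1.natDegree) /
              (1 - 1 / (Nat.card k : ℝ) ^ p.1.natDegree) ^ 2) - 1| ≤ ε :=
  Pool.Agent.HTW.twin_short k ε hε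

end Pool.Agent.Results.MP_00acf4_nt.CharTwoTwins
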