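import Pool.Agent.MP_00acf4_nt.Mg.Zero

set_option autoImplicit false

namespace Pool.Agent.Results.MP_00acf4_nt.RandomSieve

open Pool.Agent.MP_00acf4_nt MeasureTheory

theorem result : IsProbabilityMeasure law ∧ ∀ᵐ a ∂law, {n : ℕ | Sifted a n}.Infinite ∧ ∀ θ : ℝ,
    (∃ L : ℝ, Filter.Tendsto (fun N : ℕ => ∑ k ∈ Finset.range N, (-1 : ℝ) ^ (k + 1) /
      (((k : ℝ) + 1) ^ θ * ((Nat.nth (Sifted a) (k + 1) : ℝ) - (Nat.nth (Sifted a) k : ℝ))))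
        Filter.atTop (nhds L)) ↔ 1 / 2 < θ := by
  refine ⟨inferInstance, ?_⟩
  filter_upwards [ae_good, ae_not_zero] with a h1 h2
  exact ⟨h1.infinite, fun θ => ⟨fun h => lt_of_not_ge fun h3 => h2 (h1.DD_zero h3 h), h1.conv_term⟩⟩

end Pool.Agent.Results.MP_00acf4_nt.RandomSieve
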