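import Pool.Agent.MP_00acf4_nt.Tw.EN4

set_option autoImplicit false

namespace Pool.Agent.Results.MP_00acf4_nt.ReciprocalGaps

open Polynomial

/-- The exact threshold of convergence for the series of weighted reciprocal gaps between the
irreducible polynomials over the field with two elements, listed by their binary values. -/
theorem result (B : ℕ → Prop)
    (hB : ∀ y, B y ↔ ∃ f : (ZMod 2)[X], Irreducible f ∧ ∑ i ∈ f.support, 2 ^ i = y) (c : ℝ) :
    (Summable fun n : ℕ => 1 / (((n : ℝ) + 3) * Real.log (Real.log ((n : ℝ) + 3)) ^ c *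
      ((Nat.nth B (n + 1) : ℝ) - Nat.nth B n))) ↔ 2 < c := by
  obtain rfl : B = Pool.Agent.HTW.PB := funext fun y => propext (hB y)
  exact Pool.Agent.HTW.en c

end Pool.Agent.Results.MP_00acf4_nt.ReciprocalGaps
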